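import Pool.Agent.TH915.PW.Scaled

set_option autoImplicit false

/-! Small Weyl sums imply record gaps with frequency. -/

namespace Pool.Agent.TH668.Weyl

open Finset Filter
open Pool.Agent.TH915.PW
open Pool.Agent.H469R2.NK (e norm_e)
open Pool.Agent.W147.PS (ff)

open Classical in
theorem freq (ε : ℝ) (hε : 0 < ε) : ∃ κ : ℝ, 0 < κ ∧ ∃ M₀ : ℝ, ∀ M : ℝ, M₀ ≤ M →
    ∀ (ι : Type) (s : Finset ι) (x : ι → ℝ), s.Nonempty → (∀ i ∈ s, M ^ ε ≤ x i) →
    (∀ q h : ℕ, 1 ≤ q → (q : ℝ) ≤ M ^ ε → 1 ≤ h → (h : ℝ) ≤ M ^ ε →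
      ‖∑ i ∈ s, e ((h : ℝ) / q * x i)‖ ≤ s.card * M ^ (-ε)) →
    (s.card : ℝ) * M ^ (-ε) ≤
      (s.filter fun i => ∀ q : ℕ, q.Prime → κ * ff M < |(q : ℝ) - x i|).card := by
  set η : ℝ := min ε 1 / 8 with hη
  have hη0 : 0 < η := by
    have : 0 < min ε 1 := lt_min hε one_pos
    positivity
  have hηε : 8 * η ≤ ε := by
    rw [hη]
    linarith [min_le_left ε 1]
  have hη1 : 8 * η ≤ 1 := by
    rw [hη]
    linarith [min_le_right ε 1]
  obtain ⟨κ, hκ, hcrit⟩ := crit_scaled η hη0 (by linarith)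
  refine ⟨κ, hκ, ?_⟩
  apply eventually_atTop.mp
  filter_upwards [hcrit, eventually_ge_atTop (1 : ℝ),
    (tendsto_rpow_atTop (show 0 < 4 * η by linarith)).eventually_ge_atTop 4] with M hcr hM1 hM4
  intro ι s x hs hx hE
  have hM0 : 0 < M := by linarith
  by_contra hcon
  rw [not_le] at hcon
  set t : Finset ι := s.filter fun i => ∀ q : ℕ, q.Prime → κ * ff M < |(q : ℝ) - x i| with ht
  have hs0 : (0 : ℝ) < s.card := by exact_mod_cast card_pos.mpr hs
  have h4 : M ^ (-ε) ≤ M ^ (-(8 * η)) := Real.rpow_le_rpow_of_exponent_le hM1 (by linarith)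
  have h8 : M ^ (-(8 * η)) ≤ (1 / 4) * M ^ (-(4 * η)) := by
    have e1 : M ^ (-(8 * η)) = M ^ (-(4 * η)) * M ^ (-(4 * η)) := by
      rw [← Real.rpow_add hM0]
      ring_nf
    rw [e1]
    apply mul_le_mul_of_nonneg_right _ (by positivity)
    rw [Real.rpow_neg hM0.le, one_div]
    exact inv_anti₀ (by norm_num) hM4
  have h5 : M ^ (-(4 * η)) ≤ 1 := Real.rpow_le_one_of_one_le_of_nonpos hM1 (by linarith)
  have hsmall : M ^ (-ε) ≤ (1 / 4) * M ^ (-(4 * η)) := h4.trans h8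
  have htc : (t.card : ℝ) ≤ s.card * ((1 / 4) * M ^ (-(4 * η))) :=
    hcon.le.trans (mul_le_mul_of_nonneg_left hsmall hs0.le)
  have htc2 : (t.card : ℝ) ≤ s.card / 4 := by
    refine htc.trans ?_
    nlinarith
  have hsd : ((s \ t).card : ℝ) = s.card - t.card := by
    rw [card_sdiff_of_subset (filter_subset _ _), Nat.cast_sub (card_le_card (filter_subset _ _))]
  have hsdpos : 3 / 4 * (s.card : ℝ) ≤ (s \ t).card := by
    rw [hsd]
    linarith
  obtain ⟨i, hi, hq⟩ := hcr ι (s \ t) x (by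
      rw [← card_pos]
      have : (0 : ℝ) < (s \ t).card := by linarith
      exact_mod_cast this) (by
      intro i hi
      rw [Finset.mem_sdiff] at hi
      exact (Real.rpow_le_rpow_of_exponent_le hM1 (by linarith)).trans (hx i hi.1)) (by
      intro q h hq hqM hh hhM
      have h6 := hE q h hq (hqM.trans (Real.rpow_le_rpow_of_exponent_le hM1 (by linarith))) hh
        (hhM.trans (Real.rpow_le_rpow_of_exponent_le hM1 (by linarith)))
      have h7 : ∑ i ∈ s \ t, e ((h : ℝ) / q * x i) =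
          ∑ i ∈ s, e ((h : ℝ) / q * x i) - ∑ i ∈ t, e ((h : ℝ) / q * x i) := by
        rw [← sum_sdiff (filter_subset _ _ : t ⊆ s)]
        ring
      have h9 : ‖∑ i ∈ t, e ((h : ℝ) / q * x i)‖ ≤ t.card := by
        refine (norm_sum_le _ _).trans (le_of_eq ?_)
        simp only [norm_e]
        rw [sum_const, nsmul_eq_mul, mul_one]
      rw [h7]
      have h10 : (0 : ℝ) < M ^ (-(4 * η)) := by positivity
      calc ‖∑ i ∈ s, e ((h : ℝ) / q * x i) - ∑ i ∈ t, e ((h : ℝ) / q * x i)‖ ≤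
          s.card * M ^ (-ε) + t.card := (norm_sub_le _ _).trans (add_le_add h6 h9)
        _ ≤ s.card * ((1 / 4) * M ^ (-(4 * η))) + s.card * ((1 / 4) * M ^ (-(4 * η))) := by
            gcongr
        _ ≤ (3 / 4 * (s.card : ℝ)) * M ^ (-(4 * η)) := by nlinarith
        _ ≤ (s \ t).card * M ^ (-(4 * η)) := by gcongr)
  rw [Finset.mem_sdiff] at hi
  apply hi.2
  rw [ht, Finset.mem_filter]
  exact ⟨hi.1, hq⟩

end Pool.Agent.TH668.Weyl
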